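import Pool.Agent.V5helper56.DU.Stm

set_option linter.style.haveILetI false
set_option linter.unusedSectionVars false
set_option linter.unusedVariables false

open NumberField Ideal Module IntermediateField
open scoped Pointwise nonZeroDivisors

namespace Pool.Agent.V5helper11.DU

open Pool.Agent.V5helper56.DU

theorem isInt_alg {K L : Type} [Field K] [Field L] [Algebra K L] (x : K) :
    IsIntegral ℤ (algebraMap K L x) ↔ IsIntegral ℤ x :=
  isIntegral_algebraMap_iff (algebraMap K L).injective

theorem t_KER : S_KER := by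
  intro K L _ _ _ _ _ _ p σ hσ
  have hfix : ∀ u : PU p L, u ∈ (dP p σ).ker ↔ σ ((u : Lˣ) : L) = ((u : Lˣ) : L) := by
    intro u
    rw [MonoidHom.mem_ker]
    show sP p σ u / u = 1 ↔ _
    rw [div_eq_one]
    constructor
    · intro h
      rw [← sP_coe p σ u, h]
    · intro h
      apply Subtype.ext
      apply Units.ext
      rw [sP_coe]
      exact h
  have h1 : ∀ u : PU p L, u ∈ (dP p σ).ker ↔ ∃ v : PU p K, algebraMap K L ((v : Kˣ) : K) = ((u : Lˣ) : L) := by
    intro u
    rw [hfix]
    constructor
    · intro h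
      have hall : ∀ g : Gal(L/K), g ((u : Lˣ) : L) = ((u : Lˣ) : L) := by
        intro g
        have h4 : σ ∈ MulAction.stabilizer Gal(L/K) ((u : Lˣ) : L) := h
        have h5 : Subgroup.zpowers σ ≤ MulAction.stabilizer Gal(L/K) ((u : Lˣ) : L) := by
          rw [Subgroup.zpowers_le]; exact h4
        exact h5 (hσ g)
      obtain ⟨x, hx⟩ := (IsGalois.mem_range_algebraMap_iff_fixed (F := K) (E := L) ((u : Lˣ) : L)).2 hall
      have hx0 : x ≠ 0 := by
        rintro rfl
        rw [map_zero] at hx
        exact (u : Lˣ).ne_zero hx.symm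
      obtain ⟨n, hn1, hn2⟩ := u.2
      refine ⟨⟨Units.mk0 x hx0, n, ?_, ?_⟩, hx⟩
      · rw [Units.val_mk0, ← isInt_alg (L := L), map_mul, map_pow, map_natCast, hx]
        exact hn1
      · rw [Units.val_inv_eq_inv_val] at hn2 ⊢
        rw [Units.val_mk0, ← isInt_alg (L := L), map_mul, map_pow, map_natCast, map_inv₀, hx]
        exact hn2
    · rintro ⟨v, hv⟩
      rw [← hv]
      exact AlgEquiv.commutes σ _
  refine ⟨h1, ?_⟩
  -- the embedding
  have hmem : ∀ v : PU p K, Units.map (algebraMap K L : K →* L) (v : Kˣ) ∈ PU p L := by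
    intro v
    obtain ⟨n, hn1, hn2⟩ := v.2
    refine ⟨n, ?_, ?_⟩
    · have h := (isInt_alg (L := L) _).2 hn1
      rw [map_mul, map_pow, map_natCast] at h
      exact h
    · have h := (isInt_alg (L := L) _).2 hn2
      rw [map_mul, map_pow, map_natCast] at h
      rw [← map_inv]
      exact h
  let f : PU p K →* PU p L :=
    ((Units.map (algebraMap K L : K →* L)).comp (PU p K).subtype).codRestrict (PU p L) hmem
  have hfc : ∀ v, (((f v : PU p L) : Lˣ) : L) = algebraMap K L ((v : Kˣ) : K) := fun v => rfl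
  let g : PU p K →* (dP p σ).ker := f.codRestrict (dP p σ).ker (fun v => (h1 _).2 ⟨v, (hfc v).symm⟩)
  have hgc : ∀ v, ((((g v : (dP p σ).ker) : PU p L) : Lˣ) : L) = algebraMap K L ((v : Kˣ) : K) := fun v => rfl
  have hinj : Function.Injective g := by
    intro v w h
    apply Subtype.ext
    apply Units.ext
    apply (algebraMap K L).injective
    rw [← hgc v, ← hgc w, h]
  have hsurj : Function.Surjective g := by
    intro u
    obtain ⟨v, hv⟩ := (h1 u).1 u.2
    refine ⟨v, ?_⟩
    apply Subtype.ext
    apply Subtype.ext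
    apply Units.ext
    rw [hgc]
    exact hv
  let e : PU p K ≃* (dP p σ).ker := MulEquiv.ofBijective g ⟨hinj, hsurj⟩
  exact (MulEquiv.toAdditive e).toIntLinearEquiv.finrank_eq.symm

end Pool.Agent.V5helper11.DU
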