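import Pool.Agent.V5helper56.DU.Stm

set_option linter.style.haveILetI false
set_option linter.unusedSectionVars false
set_option linter.unusedVariables false

open NumberField Ideal Module IntermediateField
open scoped Pointwise nonZeroDivisors

namespace Pool.Agent.V5helper11.DU

open Pool.Agent.V5helper56.DU

theorem t_SPL : S_SPL := by
  intro K L _ _ _ _ _ _ p hp hsplit
  haveI : IsGaloisGroup Gal(L/K) (𝓞 K) (𝓞 L) := inferInstance
  haveI : Algebra.IsIntegral (𝓞 K) (𝓞 L) := inferInstance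
  -- under
  have hunder : ∀ P : Above p L, (P.1.under (𝓞 K)).IsPrime ∧ (p : 𝓞 K) ∈ P.1.under (𝓞 K) := by
    intro P
    haveI := P.2.1
    refine ⟨inferInstance, ?_⟩
    rw [Ideal.mem_comap, map_natCast]
    exact P.2.2
  have hsmul : ∀ (g : Gal(L/K)) (P : Above p L), (g • P.1).IsPrime ∧ (p : 𝓞 L) ∈ g • P.1 := by
    intro g P
    haveI := P.2.1
    refine ⟨inferInstance, ?_⟩
    have h := Ideal.smul_mem_pointwise_smul g (p : 𝓞 L) P.1 P.2.2
    have h2 : g • (p : 𝓞 L) = (p : 𝓞 L) := map_natCast (MulSemiringAction.toRingHom Gal(L/K) (𝓞 L) g) p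
    rwa [h2] at h
  -- a prime above
  have hex : ∀ 𝔭 : Above p K, ∃ P : Above p L, P.1.under (𝓞 K) = 𝔭.1 := by
    intro 𝔭
    haveI := 𝔭.2.1
    obtain ⟨P, hP1, hP2⟩ := Ideal.exists_ideal_over_prime_of_isIntegral (S := 𝓞 L) 𝔭.1 ⊥ (by
      rw [Ideal.comap_bot_of_injective _ (FaithfulSMul.algebraMap_injective (𝓞 K) (𝓞 L))]
      exact bot_le)
    obtain ⟨hP3, hP4⟩ := hP2
    refine ⟨⟨P, hP3, ?_⟩, hP4⟩
    have h : (p : 𝓞 K) ∈ P.comap (algebraMap (𝓞 K) (𝓞 L)) := by rw [hP4]; exact 𝔭.2.2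
    rw [Ideal.mem_comap, map_natCast] at h
    exact h
  choose c hc using hex
  let F : Gal(L/K) × Above p K → Above p L := fun x => ⟨x.1 • (c x.2).1, hsmul x.1 (c x.2)⟩
  have hFu : ∀ x, (F x).1.under (𝓞 K) = x.2.1 := by
    intro x
    show (x.1 • (c x.2).1).under (𝓞 K) = _
    rw [Ideal.under_smul, hc]
  have hinj : Function.Injective F := by
    rintro ⟨g, 𝔭⟩ ⟨g', 𝔭'⟩ h
    have h1 : 𝔭 = 𝔭' := by
      apply Subtype.ext
      rw [← hFu (g, 𝔭), ← hFu (g', 𝔭'), h]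
    subst h1
    have h2 : g • (c 𝔭).1 = g' • (c 𝔭).1 := congrArg Subtype.val h
    have h3 : (g'⁻¹ * g) • (c 𝔭).1 = (c 𝔭).1 := by
      rw [mul_smul, h2, inv_smul_smul]
    have h4 := hsplit (c 𝔭).1 (c 𝔭).2.1 (c 𝔭).2.2 _ h3
    have h5 : g = g' := by
      rw [inv_mul_eq_one] at h4
      exact h4.symm
    rw [h5]
  have hsurj : Function.Surjective F := by
    intro P
    let 𝔭 : Above p K := ⟨P.1.under (𝓞 K), hunder P⟩
    haveI := P.2.1
    haveI := (c 𝔭).2.1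
    obtain ⟨g, hg⟩ := Algebra.IsInvariant.exists_smul_of_under_eq (𝓞 K) (𝓞 L) Gal(L/K) (c 𝔭).1 P.1 (hc 𝔭)
    exact ⟨(g, 𝔭), Subtype.ext hg.symm⟩
  rw [← Nat.card_prod]
  exact (Nat.card_congr (Equiv.ofBijective F ⟨hinj, hsurj⟩)).symm

end Pool.Agent.V5helper11.DU
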